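import Pool.Agent.HP25.OS.G
import Pool.Agent.HP25.RD.F

set_option autoImplicit false

/-! Sums over windows and progressions of nice functions at `α n + h`, for all integers `h` close to a random real number
with bounded moments. -/

namespace Pool.Agent.HP25.PC
open Finset
open Pool.Agent.H807R2.Dav
open Pool.Agent.H373R2.T7
open Pool.Agent.W93.DG
open Pool.Agent.W93.LM (Nice)
open Pool.Agent.TH872.Sq
open Pool.Agent.HP25.OS (Mo logs dual one_nice)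
open Pool.Agent.HP25.RD (ex grid)

variable {ι : Type}

lemma ee_neg_conj (x : ℝ) : ee (-x) = (starRingEnd ℂ) (ee x) := by
  unfold ee
  rw [← Complex.exp_conj]
  congr 1
  rw [map_mul, map_mul, map_mul, Complex.conj_ofReal, Complex.conj_ofReal, Complex.conj_I, map_ofNat]
  push_cast
  ring

/-- the opposite law -/
lemma mo_neg {q : ℕ} {C : ℝ} {Y : ℕ} {s : Finset ι} {p g : ι → ℝ} (h : Mo q C Y s p g) : Mo q C Y s p (fun i => -g i) := by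
  refine ⟨h.nonneg, h.sum, ?_⟩
  refine le_trans (le_of_eq ?_) h.mom
  apply sum_congr rfl
  intro t _
  congr 1
  have e : ∑ i ∈ s, ((p i : ℝ) : ℂ) * ee ((t : ℝ) / ((12 * q * Y : ℕ) : ℝ) * -g i) =
      (starRingEnd ℂ) (∑ i ∈ s, ((p i : ℝ) : ℂ) * ee ((t : ℝ) / ((12 * q * Y : ℕ) : ℝ) * g i)) := by
    rw [map_sum]
    apply sum_congr rfl
    intro i _
    rw [map_mul, Complex.conj_ofReal, mul_neg, ee_neg_conj]
  rw [e, RCLike.norm_conj]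

lemma sum_sym (H : ℤ → ℝ) (X : ℕ) : ∑ c ∈ Icc (-(X : ℤ)) X, H c = H 0 + (∑ c ∈ Icc 1 X, H (c : ℤ) + ∑ c ∈ Icc 1 X, H (-(c : ℤ))) := by
  induction X with
  | zero => simp
  | succ X ih =>
    have e1 : Icc (-((X + 1 : ℕ) : ℤ)) ((X + 1 : ℕ) : ℤ) = insert (-((X + 1 : ℕ) : ℤ)) (insert ((X + 1 : ℕ) : ℤ) (Icc (-(X : ℤ)) X)) := by
      ext c
      simp only [mem_insert, mem_Icc]
      push_cast
      omega
    have n1 : ((X + 1 : ℕ) : ℤ) ∉ Icc (-(X : ℤ)) X := by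
      rw [mem_Icc]
      push_cast
      omega
    have n2 : (-((X + 1 : ℕ) : ℤ)) ∉ insert ((X + 1 : ℕ) : ℤ) (Icc (-(X : ℤ)) X) := by
      rw [mem_insert, mem_Icc]
      push_cast
      omega
    rw [e1, sum_insert n2, sum_insert n1, ih, sum_Icc_succ_top (by omega), sum_Icc_succ_top (by omega)]
    push_cast
    ring

lemma nice_le {f : ℕ → ℝ} (hf : Nice (fun n => ((f n : ℝ) : ℂ))) (n : ℕ) : |f n| ≤ 1 := by
  have := hf.1 n
  rwa [Complex.norm_real, Real.norm_eq_abs] at this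

lemma ex_le {f : ℕ → ℝ} (hf : Nice (fun n => ((f n : ℝ) : ℂ))) (x : ℤ) : |ex f x| ≤ 1 := by
  unfold ex fx
  by_cases h6 : 1 ≤ x
  · rw [if_pos h6, if_neg (by omega), add_zero]
    exact nice_le hf _
  · rw [if_neg h6, zero_add]
    split_ifs
    · exact nice_le hf _
    · rw [abs_zero]; exact zero_le_one

/-- **One random shift, all integers.** -/
theorem two_sided (q : ℕ) (hq : 1 ≤ q) (C₀ : ℝ) (hC₀ : 0 < C₀) (f : ℕ → ℝ) (hf : Nice (fun n => ((f n : ℝ) : ℂ)))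
    (F F₀ W U : ℕ) : ∃ K₀ : ℕ, ∀ Y : ℕ, K₀ ≤ Y → ∀ (s : Finset ι) (p g : ι → ℝ), Mo q C₀ Y s p g → ∀ φ : ι → ℤ,
    (∀ i ∈ s, |(φ i : ℝ) - g i| ≤ (Nat.log 2 Y : ℝ) ^ W) → (∀ i ∈ s, |φ i| ≤ ((F * Y : ℕ) : ℤ)) →
    ∀ X : ℕ, X ≤ F₀ * Y → ∀ G : ℤ → ℝ, (∀ c, |G c| ≤ 1) →
    ∑ i ∈ s, p i * |∑ c ∈ Icc (-(X : ℤ)) X, G c * ex f (φ i + c)| ≤ 5 * (Y / Real.log Y ^ U) := by
  obtain ⟨K1, h1⟩ := one_nice (ι := ι) q hq C₀ hC₀ f hf F (F₀ + 1) W U (by omega)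
  obtain ⟨K2, h2⟩ := logs 1 1 (2 * U) le_rfl le_rfl 1
  refine ⟨K1 + K2 + 1, fun Y hY s p g hMo φ hφ hsz X hX G hG => ?_⟩
  obtain ⟨l1, l2, -, l4, -, -, -, -, -, l10⟩ := h2 Y (by omega) Y (by omega) (by omega)
  have hYY : Y ≤ (F₀ + 1) * Y := Nat.le_mul_of_pos_left _ (by omega)
  have hXX : X ≤ (F₀ + 1) * Y := hX.trans (Nat.mul_le_mul_right _ (by omega))
  obtain ⟨E, hE⟩ : ∃ E : ℝ, E = Y / Real.log Y ^ U := ⟨_, rfl⟩
  have hE1 : 1 ≤ E := by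
    rw [hE, le_div_iff₀ (by positivity), one_mul]
    calc Real.log Y ^ U ≤ ((Nat.log 2 Y : ℝ) ^ 2) ^ U := pow_le_pow_left₀ (by linarith) l4 U
      _ = (Nat.log 2 Y : ℝ) ^ (2 * U) := by rw [← pow_mul]
      _ ≤ Y := by exact_mod_cast l10
  -- the four parts
  have key : ∀ (τ : ℤ) (σ : ℤ), (τ = 1 ∨ τ = -1) → (σ = 1 ∨ σ = -1) → ∀ G' : ℕ → ℝ, (∀ c, |G' c| ≤ 1) →
      ∑ i ∈ s, p i * |∑ c ∈ Icc 1 X, G' c * fx f (τ * φ i + σ * (c : ℤ))| ≤ E := by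
    intro τ σ hτ hσ G' hG'
    have hMo' : Mo q C₀ Y s p (fun i => (τ : ℝ) * g i) := by
      rcases hτ with h | h
      · rw [h]
        simpa using hMo
      · rw [h]
        have := mo_neg hMo
        simpa using this
    have hτa : |(τ : ℝ)| = 1 := by rcases hτ with h | h <;> rw [h] <;> simp
    have hτa' : |τ| = 1 := by rcases hτ with h | h <;> rw [h] <;> simp
    have h3 := dual (s := s) (p := p) X E (fun i n => fx f (τ * φ i + σ * (n : ℤ))) (fun G'' hG'' => by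
      rw [hE]
      exact h1 Y (by omega) Y hYY hYY s p (fun i => (τ : ℝ) * g i) hMo' (fun i => τ * φ i) (fun i hi => by
        push_cast
        rw [← mul_sub, abs_mul, hτa, one_mul]
        exact hφ i hi) (fun i hi => by
        rw [abs_mul, hτa', one_mul]
        exact hsz i hi) X hXX σ hσ G'' hG'') 1 zero_le_one G' (fun n _ => hG' n)
    rwa [one_mul] at h3
  have k1 := key 1 1 (Or.inl rfl) (Or.inl rfl) (fun c => G (c : ℤ)) (fun c => hG _)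
  have k2 := key 1 (-1) (Or.inl rfl) (Or.inr rfl) (fun c => G (-(c : ℤ))) (fun c => hG _)
  have k3 := key (-1) (-1) (Or.inr rfl) (Or.inr rfl) (fun c => G (c : ℤ)) (fun c => hG _)
  have k4 := key (-1) 1 (Or.inr rfl) (Or.inl rfl) (fun c => G (-(c : ℤ))) (fun c => hG _)
  have k0 : ∑ i ∈ s, p i * |G 0 * ex f (φ i + 0)| ≤ E := by
    calc ∑ i ∈ s, p i * |G 0 * ex f (φ i + 0)| ≤ ∑ i ∈ s, p i * 1 := by
          apply sum_le_sum
          intro i hi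
          apply mul_le_mul_of_nonneg_left _ (hMo.nonneg i hi)
          rw [abs_mul]
          have a1 := hG 0
          have a2 := ex_le hf (φ i + 0)
          have a3 := abs_nonneg (G 0)
          have a4 := abs_nonneg (ex f (φ i + 0))
          nlinarith
      _ = 1 := by rw [← sum_mul, hMo.sum, one_mul]
      _ ≤ E := hE1
  have hle : ∀ i ∈ s, p i * |∑ c ∈ Icc (-(X : ℤ)) X, G c * ex f (φ i + c)| ≤
      p i * |G 0 * ex f (φ i + 0)| + (p i * |∑ c ∈ Icc 1 X, G (c : ℤ) * fx f (1 * φ i + 1 * (c : ℤ))| +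
        p i * |∑ c ∈ Icc 1 X, G (-(c : ℤ)) * fx f (1 * φ i + (-1) * (c : ℤ))| +
        p i * |∑ c ∈ Icc 1 X, G (c : ℤ) * fx f ((-1) * φ i + (-1) * (c : ℤ))| +
        p i * |∑ c ∈ Icc 1 X, G (-(c : ℤ)) * fx f ((-1) * φ i + 1 * (c : ℤ))|) := by
    intro i hi
    have hp := hMo.nonneg i hi
    rw [← mul_add, ← mul_add, ← mul_add, ← mul_add]
    apply mul_le_mul_of_nonneg_left _ hp
    rw [sum_sym (fun c => G c * ex f (φ i + c))]
    refine (abs_add_le _ _).trans ?_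
    apply add_le_add le_rfl
    have e1 : ∑ c ∈ Icc 1 X, G (c : ℤ) * ex f (φ i + (c : ℤ)) = ∑ c ∈ Icc 1 X, G (c : ℤ) * fx f (1 * φ i + 1 * (c : ℤ)) +
        ∑ c ∈ Icc 1 X, G (c : ℤ) * fx f ((-1) * φ i + (-1) * (c : ℤ)) := by
      rw [← sum_add_distrib]
      apply sum_congr rfl
      intro c _
      unfold ex
      rw [show φ i + (c : ℤ) = 1 * φ i + 1 * (c : ℤ) by ring, show -(1 * φ i + 1 * (c : ℤ)) = (-1) * φ i + (-1) * (c : ℤ) by ring]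
      ring
    have e2 : ∑ c ∈ Icc 1 X, G (-(c : ℤ)) * ex f (φ i + -(c : ℤ)) = ∑ c ∈ Icc 1 X, G (-(c : ℤ)) * fx f (1 * φ i + (-1) * (c : ℤ)) +
        ∑ c ∈ Icc 1 X, G (-(c : ℤ)) * fx f ((-1) * φ i + 1 * (c : ℤ)) := by
      rw [← sum_add_distrib]
      apply sum_congr rfl
      intro c _
      unfold ex
      rw [show φ i + -(c : ℤ) = 1 * φ i + (-1) * (c : ℤ) by ring, show -(1 * φ i + (-1) * (c : ℤ)) = (-1) * φ i + 1 * (c : ℤ) by ring]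
      ring
    rw [e1, e2]
    have b1 := abs_add_le (∑ c ∈ Icc 1 X, G (c : ℤ) * fx f (1 * φ i + 1 * (c : ℤ)) + ∑ c ∈ Icc 1 X, G (c : ℤ) * fx f ((-1) * φ i + (-1) * (c : ℤ)))
      (∑ c ∈ Icc 1 X, G (-(c : ℤ)) * fx f (1 * φ i + (-1) * (c : ℤ)) + ∑ c ∈ Icc 1 X, G (-(c : ℤ)) * fx f ((-1) * φ i + 1 * (c : ℤ)))
    have b2 := abs_add_le (∑ c ∈ Icc 1 X, G (c : ℤ) * fx f (1 * φ i + 1 * (c : ℤ))) (∑ c ∈ Icc 1 X, G (c : ℤ) * fx f ((-1) * φ i + (-1) * (c : ℤ)))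
    have b3 := abs_add_le (∑ c ∈ Icc 1 X, G (-(c : ℤ)) * fx f (1 * φ i + (-1) * (c : ℤ))) (∑ c ∈ Icc 1 X, G (-(c : ℤ)) * fx f ((-1) * φ i + 1 * (c : ℤ)))
    linarith
  refine (sum_le_sum hle).trans ?_
  rw [sum_add_distrib, sum_add_distrib, sum_add_distrib, sum_add_distrib, ← hE]
  linarith

end Pool.Agent.HP25.PC
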