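import Pool.Agent.HP25.PC.A

set_option autoImplicit false

/-! Windows and progressions. -/

namespace Pool.Agent.HP25.PC
open Finset
open Pool.Agent.H807R2.Dav
open Pool.Agent.H373R2.T7
open Pool.Agent.W93.DG
open Pool.Agent.W93.LM (Nice)
open Pool.Agent.TH872.Sq
open Pool.Agent.HP25.OS (Mo logs)
open Pool.Agent.HP25.RD (ex grid)

variable {ι : Type}

/-- the sum over a window and a residue class -/
noncomputable def wsum (f : ℕ → ℝ) (G : ℤ → ℝ) (α : ℕ) (h : ℤ) (m : ℕ) (r u w : ℤ) : ℝ :=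
  ∑ n ∈ (Icc u w).filter (fun n => n ≡ r [ZMOD m]), G n * ex f (α * n + h)

open Classical in
/-- the coefficients of an initial segment -/
noncomputable def Kv (G : ℤ → ℝ) (α X m : ℕ) (r : ℤ) (v : ℕ) (c : ℤ) : ℝ :=
  if (α : ℤ) ∣ c ∧ c + X < v ∧ c / α ≡ r [ZMOD m] then G (c / α) else 0

lemma Kv_le (G : ℤ → ℝ) (hG : ∀ n, |G n| ≤ 1) (α X m : ℕ) (r : ℤ) (v : ℕ) (c : ℤ) : |Kv G α X m r v c| ≤ 1 := by
  unfold Kv
  split_ifs
  · exact hG _
  · rw [abs_zero]; exact zero_le_one

/-- the sum over an initial segment -/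
noncomputable def Ini (f : ℕ → ℝ) (G : ℤ → ℝ) (α X m : ℕ) (r h : ℤ) (v : ℕ) : ℝ :=
  ∑ c ∈ Icc (-(X : ℤ)) X, Kv G α X m r v c * ex f (h + c)

open Classical in
lemma Ini_eq (f : ℕ → ℝ) (G : ℤ → ℝ) (α X m : ℕ) (hα : 1 ≤ α) (r h : ℤ) (v : ℕ) : Ini f G α X m r h v =
    ∑ n ∈ (Icc (-(X : ℤ)) X).filter (fun n => (-(X : ℤ) ≤ α * n ∧ α * n ≤ X) ∧ α * n + X < v ∧ n ≡ r [ZMOD m]),
      G n * ex f (α * n + h) := by
  have hα0 : (0 : ℤ) < α := by exact_mod_cast hα
  unfold Ini
  have e1 : ∑ c ∈ Icc (-(X : ℤ)) X, Kv G α X m r v c * ex f (h + c) =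
      ∑ c ∈ (Icc (-(X : ℤ)) X).filter (fun c => (α : ℤ) ∣ c ∧ c + X < v ∧ c / α ≡ r [ZMOD m]), G (c / α) * ex f (h + c) := by
    rw [sum_filter]
    apply sum_congr rfl
    intro c _
    unfold Kv
    by_cases h1 : (α : ℤ) ∣ c ∧ c + X < v ∧ c / α ≡ r [ZMOD m]
    · rw [if_pos h1, if_pos h1]
    · rw [if_neg h1, if_neg h1, zero_mul]
  rw [e1]
  refine sum_nbij' (fun c => c / α) (fun n => α * n) ?_ ?_ ?_ ?_ ?_
  · intro c hc
    rw [mem_filter, mem_Icc] at hc
    obtain ⟨⟨h1, h2⟩, h3, h4, h5⟩ := hc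
    have h6 : (α : ℤ) * (c / α) = c := Int.mul_ediv_cancel' h3
    rw [mem_filter, mem_Icc, h6]
    refine ⟨⟨?_, ?_⟩, ⟨h1, h2⟩, h4, h5⟩
    · rw [Int.le_ediv_iff_mul_le hα0]
      nlinarith
    · rw [Int.ediv_le_iff_le_mul hα0]
      nlinarith
  · intro n hn
    rw [mem_filter, mem_Icc] at hn
    obtain ⟨_, ⟨h3, h4⟩, h5, h6⟩ := hn
    rw [mem_filter, mem_Icc, Int.mul_ediv_cancel_left n hα0.ne']
    exact ⟨⟨h3, h4⟩, dvd_mul_right _ _, h5, h6⟩
  · intro c hc
    rw [mem_filter] at hc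
    exact Int.mul_ediv_cancel' hc.2.1
  · intro n _
    exact Int.mul_ediv_cancel_left n hα0.ne'
  · intro c hc
    rw [mem_filter] at hc
    rw [Int.mul_ediv_cancel' hc.2.1, add_comm h c]

/-- a window is the difference of two initial segments -/
lemma wsum_eq (f : ℕ → ℝ) (G : ℤ → ℝ) (α X m : ℕ) (hα : 1 ≤ α) (r h u w : ℤ) (huw : u ≤ w) (hu : α * |u| ≤ X) (hw : α * |w| ≤ X) :
    wsum f G α h m r u w = Ini f G α X m r h (α * w + X + 1).toNat - Ini f G α X m r h (α * u + X).toNat := by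
  classical
  have hα0 : (0 : ℤ) < α := by exact_mod_cast hα
  have hX0 : (0 : ℤ) ≤ X := Int.natCast_nonneg _
  have bnd : ∀ x : ℤ, α * |x| ≤ X → -(X : ℤ) ≤ α * x ∧ α * x ≤ X := by
    intro x hx
    have h1 := neg_abs_le x
    have h2 := le_abs_self x
    constructor <;> nlinarith
  obtain ⟨u1, u2⟩ := bnd u hu
  obtain ⟨w1, w2⟩ := bnd w hw
  have c1 : (((α * w + X + 1).toNat : ℕ) : ℤ) = α * w + X + 1 := Int.toNat_of_nonneg (by linarith)
  have c2 : (((α * u + X).toNat : ℕ) : ℤ) = α * u + X := Int.toNat_of_nonneg (by linarith)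
  rw [Ini_eq f G α X m hα, Ini_eq f G α X m hα, c1, c2]
  unfold wsum
  rw [eq_sub_iff_add_eq, ← sum_union]
  · apply sum_congr _ fun _ _ => rfl
    ext n
    rw [mem_union, mem_filter, mem_filter, mem_filter, mem_Icc, mem_Icc]
    have sml : ∀ n : ℤ, -(X : ℤ) ≤ α * n → α * n ≤ X → -(X : ℤ) ≤ n ∧ n ≤ X := by
      intro n h1 h2
      constructor
      · by_contra h3
        push Not at h3
        nlinarith
      · by_contra h3
        push Not at h3
        nlinarith
    constructor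
    · rintro (⟨⟨h1, h2⟩, h3⟩ | ⟨h1, h2, h3, h4⟩)
      · have h4 : (α : ℤ) * u ≤ α * n := mul_le_mul_of_nonneg_left h1 hα0.le
        have h5 : (α : ℤ) * n ≤ α * w := mul_le_mul_of_nonneg_left h2 hα0.le
        exact ⟨sml n (by linarith) (by linarith), ⟨by linarith, by linarith⟩, by linarith, h3⟩
      · have h5 : (α : ℤ) * u ≤ α * w := mul_le_mul_of_nonneg_left huw hα0.le
        exact ⟨h1, h2, by linarith, h4⟩
    · rintro ⟨h1, h2, h3, h4⟩
      have h5 : n ≤ w := by
        by_contra h6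
        push Not at h6
        nlinarith
      by_cases h6 : u ≤ n
      · exact Or.inl ⟨⟨h6, h5⟩, h4⟩
      · push Not at h6
        right
        exact ⟨h1, h2, by nlinarith, h4⟩
  · rw [disjoint_left]
    intro n hn hn'
    rw [mem_filter, mem_Icc] at hn hn'
    have h1 := hn.1.1
    have h2 := hn'.2.2.1
    nlinarith

/-- neighbouring initial segments -/
lemma Ini_near {f : ℕ → ℝ} (hf : Nice (fun n => ((f n : ℝ) : ℂ))) (G : ℤ → ℝ) (hG : ∀ n, |G n| ≤ 1) (α X m : ℕ) (r h : ℤ) (t v : ℕ)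
    (htv : t ≤ v) : |Ini f G α X m r h v| ≤ |Ini f G α X m r h t| + (((range (2 * X + 1)).filter (fun j => t ≤ j ∧ j < v)).card : ℝ) := by
  classical
  have h1 : |Ini f G α X m r h v - Ini f G α X m r h t| ≤ (((range (2 * X + 1)).filter (fun j => t ≤ j ∧ j < v)).card : ℝ) := by
    unfold Ini
    rw [← sum_sub_distrib]
    refine (abs_sum_le_sum_abs _ _).trans ?_
    have h2 : ∀ c ∈ Icc (-(X : ℤ)) X, |Kv G α X m r v c * ex f (h + c) - Kv G α X m r t c * ex f (h + c)| ≤
        if (t : ℤ) ≤ c + X ∧ c + X < v then 1 else 0 := by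
      intro c _
      rw [← sub_mul, abs_mul]
      have h3 := ex_le hf (h + c)
      have h4 : |Kv G α X m r v c - Kv G α X m r t c| ≤ if (t : ℤ) ≤ c + X ∧ c + X < v then 1 else 0 := by
        by_cases h5 : (t : ℤ) ≤ c + X ∧ c + X < v
        · rw [if_pos h5]
          have h6 : Kv G α X m r t c = 0 := by
            unfold Kv
            rw [if_neg]
            rintro ⟨_, h7, _⟩
            omega
          rw [h6, sub_zero]
          exact Kv_le G hG α X m r v c
        · rw [if_neg h5]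
          have h6 : Kv G α X m r v c = Kv G α X m r t c := by
            unfold Kv
            congr 1
            apply propext
            constructor
            · rintro ⟨a1, a2, a3⟩
              refine ⟨a1, ?_, a3⟩
              omega
            · rintro ⟨a1, a2, a3⟩
              refine ⟨a1, ?_, a3⟩
              omega
          rw [h6, sub_self, abs_zero]
      calc |Kv G α X m r v c - Kv G α X m r t c| * |ex f (h + c)| ≤ (if (t : ℤ) ≤ c + X ∧ c + X < v then 1 else 0) * 1 := by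
            apply mul_le_mul h4 h3 (abs_nonneg _)
            split_ifs <;> norm_num
        _ = _ := mul_one _
    refine (sum_le_sum h2).trans ?_
    rw [← sum_filter, sum_const, nsmul_eq_mul, mul_one]
    apply Nat.cast_le.2
    apply card_le_card_of_injOn (fun c : ℤ => (c + (X : ℤ)).toNat)
    · intro c hc
      rw [mem_coe, mem_filter, mem_Icc] at hc
      rw [mem_coe, mem_filter, mem_range]
      beta_reduce
      omega
    · intro c hc c' hc' hcc
      rw [mem_coe, mem_filter, mem_Icc] at hc hc'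
      simp only at hcc
      omega
  have h2 := abs_sub_abs_le_abs_sub (Ini f G α X m r h v) (Ini f G α X m r h t)
  linarith

end Pool.Agent.HP25.PC
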