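import Pool.Agent.HP25.PC.B

set_option autoImplicit false

/-! All integers close to a random real number with bounded moments. -/

namespace Pool.Agent.HP25.PC
open Finset
open Pool.Agent.H807R2.Dav
open Pool.Agent.H373R2.T7
open Pool.Agent.W93.DG
open Pool.Agent.W93.LM (Nice)
open Pool.Agent.TH872.Sq
open Pool.Agent.HP25.OS (Mo logs)
open Pool.Agent.HP25.RD (ex grid)

variable {ι : Type}

lemma markov_p {s : Finset ι} {p : ι → ℝ} (hp : ∀ i ∈ s, 0 ≤ p i) (Z : ι → ℝ) (hZ : ∀ i ∈ s, 0 ≤ Z i) (A E : ℝ) (hA : 0 < A)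
    (h : ∑ i ∈ s, p i * Z i ≤ E) [DecidablePred fun i => A < Z i] : ∑ i ∈ s.filter (fun i => A < Z i), p i ≤ E / A := by
  rw [le_div_iff₀ hA, sum_mul]
  refine le_trans ?_ h
  rw [sum_filter]
  apply sum_le_sum
  intro i hi
  split_ifs with h1
  · exact mul_le_mul_of_nonneg_left h1.le (hp i hi)
  · exact mul_nonneg (hp i hi) (hZ i hi)

open Classical in
lemma sum_biUnion_le' {β : Type} (J : Finset β) (S : β → Finset ι) (p : ι → ℝ) (hp : ∀ τ ∈ J, ∀ i ∈ S τ, 0 ≤ p i) :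
    ∑ i ∈ J.biUnion S, p i ≤ ∑ τ ∈ J, ∑ i ∈ S τ, p i := by
  induction J using Finset.induction_on with
  | empty => simp
  | insert a J ha ih =>
    rw [biUnion_insert, sum_insert ha]
    have h1 := ih (fun τ hτ => hp τ (mem_insert_of_mem hτ))
    have h2 := sum_union_inter (s₁ := S a) (s₂ := J.biUnion S) (f := p)
    have h3 : 0 ≤ ∑ i ∈ S a ∩ J.biUnion S, p i := sum_nonneg fun i hi => hp a (mem_insert_self _ _) i (mem_inter.1 hi).1
    linarith

lemma log_big (K : ℝ) : ∃ K₀ : ℕ, ∀ Y : ℕ, K₀ ≤ Y → K ≤ Real.log Y := by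
  obtain ⟨K₀, hK₀⟩ := exists_nat_ge (Real.exp K)
  refine ⟨K₀, fun Y hY => ?_⟩
  have h1 : Real.exp K ≤ Y := hK₀.trans (by exact_mod_cast hY)
  rw [Real.le_log_iff_exp_le (lt_of_lt_of_le (Real.exp_pos _) h1)]
  exact h1

open Classical in
/-- **All integers close to a random real number with bounded moments**: arbitrary coefficients, windows, progressions. -/
theorem small_law (q : ℕ) (hq : 1 ≤ q) (C₀ : ℝ) (hC₀ : 0 < C₀) (f : ℕ → ℝ) (hf : Nice (fun n => ((f n : ℝ) : ℂ)))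
    (F B T W U : ℕ) : ∃ K₀ : ℕ, ∀ Y : ℕ, K₀ ≤ Y → ∀ (s : Finset ι) (p g : ι → ℝ), Mo q C₀ Y s p g →
    (∀ i ∈ s, |g i| ≤ F * Y) → ∀ L : ℕ, (L : ℝ) ≤ Real.log Y ^ T → ∀ G : Fin L → ℤ → ℝ, (∀ l n, |G l n| ≤ 1) →
    ∀ α : Fin L → ℕ, (∀ l, 1 ≤ α l) → ∀ Bad ⊆ s, (∀ i ∈ Bad, ∃ h : ℤ, |(h : ℝ) - g i| ≤ Real.log Y ^ W ∧
      ∃ (l : Fin L) (m : ℕ) (r u w : ℤ), 1 ≤ m ∧ (m : ℝ) ≤ Real.log Y ^ T ∧ α l * |u| ≤ ((B * Y : ℕ) : ℤ) ∧
        α l * |w| ≤ ((B * Y : ℕ) : ℤ) ∧ Y / Real.log Y ^ U < |wsum f (G l) (α l) h m r u w|) →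
    ∑ i ∈ Bad, p i ≤ 1 / Real.log Y ^ U := by
  obtain ⟨V, hV⟩ : ∃ V, V = W + 3 * T + 3 * U + 12 := ⟨_, rfl⟩
  obtain ⟨K1, h1⟩ := two_sided (ι := ι) q hq C₀ hC₀ f hf (F + 1) B (2 * W + 1) V
  obtain ⟨K2, h2⟩ := logs 1 1 (2 * W + 1) le_rfl le_rfl 8
  obtain ⟨K3, h3⟩ := log_big (8 * B + 16)
  refine ⟨K1 + K2 + K3 + 1, fun Y hY s p g hMo hg L hL G hG α hα Bad hBs hBad => ?_⟩
  obtain ⟨l1, l2, -, l4, -, -, -, -, -, l10⟩ := h2 Y (by omega) Y (by omega) (by omega)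
  have lb := h3 Y (by omega)
  obtain ⟨Lg, hLg⟩ : ∃ Lg, Lg = Real.log Y := ⟨_, rfl⟩
  obtain ⟨k, hk⟩ : ∃ k, k = Nat.log 2 Y := ⟨_, rfl⟩
  rw [← hk] at l1 l4 l10
  rw [← hLg] at l2 l4 lb hL hBad ⊢
  have hB0 : (0 : ℝ) ≤ B := Nat.cast_nonneg _
  have hL16 : 16 ≤ Lg := by linarith
  have hLg0 : 0 < Lg := by linarith
  have hLg1 : 1 ≤ Lg := by linarith
  have hY1 : 1 ≤ Y := by omega
  have hY0 : (0 : ℝ) < Y := by exact_mod_cast hY1
  have hk1 : (1 : ℝ) ≤ k := by linarith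
  -- the parameters
  obtain ⟨R, hR⟩ : ∃ R : ℕ, R = ⌈Lg ^ W⌉₊ + 1 := ⟨_, rfl⟩
  obtain ⟨Q, hQ⟩ : ∃ Q : ℕ, Q = ⌊Lg ^ T⌋₊ := ⟨_, rfl⟩
  obtain ⟨M, hM⟩ : ∃ M : ℕ, M = ⌈Lg ^ (U + 2)⌉₊ := ⟨_, rfl⟩
  obtain ⟨X, hX⟩ : ∃ X : ℕ, X = B * Y := ⟨_, rfl⟩
  have hR1 : (R : ℝ) ≤ Lg ^ W + 2 := by
    rw [hR]
    push_cast
    have := (Nat.ceil_lt_add_one (show 0 ≤ Lg ^ W by positivity)).le
    linarith
  have hM1 : Lg ^ (U + 2) ≤ M := by rw [hM]; exact Nat.le_ceil _
  have hM2 : (M : ℝ) ≤ Lg ^ (U + 2) + 1 := by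
    rw [hM]
    exact (Nat.ceil_lt_add_one (show 0 ≤ Lg ^ (U + 2) by positivity)).le
  have hM0 : 1 ≤ M := by
    have : (1 : ℝ) ≤ M := le_trans (one_le_pow₀ hLg1) hM1
    exact_mod_cast this
  have hQ1 : (Q : ℝ) ≤ Lg ^ T := by rw [hQ]; exact Nat.floor_le (by positivity)
  obtain ⟨t, ht⟩ := grid (range (2 * X + 1)) M hM0
  have hWk : Lg ^ W ≤ (k : ℝ) ^ (2 * W) := by
    rw [pow_mul]
    exact pow_le_pow_left₀ (by linarith) l4 W
  have hk8 : (8 : ℝ) * (k : ℝ) ^ (2 * W) ≤ (k : ℝ) ^ (2 * W + 1) := by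
    rw [pow_succ, mul_comm]
    exact mul_le_mul_of_nonneg_left l1 (by positivity)
  have hk1W : (1 : ℝ) ≤ (k : ℝ) ^ (2 * W) := one_le_pow₀ hk1
  -- the tests
  obtain ⟨J, hJ⟩ : ∃ J : Finset (ℤ × Fin L × ℕ × ℕ × ℕ), J = Icc (-(R : ℤ)) R ×ˢ (univ : Finset (Fin L)) ×ˢ range (Q + 1) ×ˢ range (Q + 1) ×ˢ range (M + 1) := ⟨_, rfl⟩
  obtain ⟨Z, hZ⟩ : ∃ Z : ℤ × Fin L × ℕ × ℕ × ℕ → ι → ℝ, ∀ τ i, Z τ i =
      |Ini f (G τ.2.1) (α τ.2.1) X τ.2.2.1 (τ.2.2.2.1 : ℤ) (⌊g i⌋ + τ.1) (t τ.2.2.2.2)| := ⟨_, fun _ _ => rfl⟩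
  have hZ1 : ∀ τ ∈ J, ∑ i ∈ s, p i * Z τ i ≤ 5 * (Y / Lg ^ V) := by
    intro τ hτ
    rw [hJ, mem_product, mem_Icc] at hτ
    have hu := hτ.1
    have h4 := h1 Y (by omega) s p g hMo (fun i => ⌊g i⌋ + τ.1) (fun i hi => by
      rw [← hk]
      push_cast
      have a1 := Int.floor_le (g i)
      have a2 := Int.lt_floor_add_one (g i)
      have a3 : |(τ.1 : ℝ)| ≤ R := by
        rw [abs_le]
        constructor
        · exact_mod_cast hu.1
        · exact_mod_cast hu.2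
      have a4 : |((⌊g i⌋ : ℝ) + τ.1 - g i)| ≤ 1 + R := by
        have a5 := abs_le.1 a3
        rw [abs_le]
        constructor <;> linarith [a5.1, a5.2]
      refine a4.trans ?_
      linarith) (fun i hi => by
      have a1 := hg i hi
      have a2 : (R : ℝ) + 1 ≤ Y := by
        have a3 : (k : ℝ) ^ (2 * W + 1) ≤ Y := by exact_mod_cast l10
        linarith
      have a3 : |((⌊g i⌋ + τ.1 : ℤ) : ℝ)| ≤ (F + 1) * Y := by
        push_cast
        have b1 := Int.floor_le (g i)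
        have b2 := Int.lt_floor_add_one (g i)
        have b3 : |(τ.1 : ℝ)| ≤ R := by
          rw [abs_le]
          constructor
          · exact_mod_cast hu.1
          · exact_mod_cast hu.2
        have b4 := abs_le.1 b3
        have b5 := abs_le.1 a1
        rw [abs_le]
        constructor <;> nlinarith [b4.1, b4.2, b5.1, b5.2]
      rw [← Int.cast_abs] at a3
      have a4 : (((|⌊g i⌋ + τ.1| : ℤ)) : ℝ) ≤ ((((F + 1) * Y : ℕ) : ℤ) : ℝ) := by
        push_cast at a3 ⊢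
        exact a3
      exact_mod_cast a4) X (by rw [hX]) (Kv (G τ.2.1) (α τ.2.1) X τ.2.2.1 (τ.2.2.2.1 : ℤ) (t τ.2.2.2.2))
      (Kv_le _ (hG _) _ _ _ _ _)
    rw [← hLg] at h4
    refine le_trans (le_of_eq ?_) h4
    apply sum_congr rfl
    intro i _
    rw [hZ]
    rfl
  obtain ⟨A, hA⟩ : ∃ A : ℝ, A = Y / Lg ^ (U + 1) := ⟨_, rfl⟩
  have hA0 : 0 < A := by rw [hA]; positivity
  -- every bad index fails a test
  have hsub : Bad ⊆ J.biUnion (fun τ => s.filter (fun i => A < Z τ i)) := by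
    intro i hi
    obtain ⟨h, hh, l, m, r, u, w, hm1, hm2, hu, hw, hbig⟩ := hBad i hi
    rw [mem_biUnion]
    by_contra hcon
    push Not at hcon
    -- the residue
    have hm0 : (0 : ℤ) < m := by exact_mod_cast hm1
    have hmQ : m ≤ Q := by
      rw [hQ]
      exact Nat.le_floor hm2
    obtain ⟨r', hr'⟩ : ∃ r' : ℕ, (r' : ℤ) = r % m := ⟨(r % m).toNat, Int.toNat_of_nonneg (Int.emod_nonneg _ hm0.ne')⟩
    have hr1 : r' < m := by
      have := Int.emod_lt_of_pos r hm0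
      rw [← hr'] at this
      exact_mod_cast this
    have hrr : (r' : ℤ) ≡ r [ZMOD m] := by
      rw [hr']
      exact Int.mod_modEq r m
    have hws : wsum f (G l) (α l) h m r u w = wsum f (G l) (α l) h m r' u w := by
      unfold wsum
      apply sum_congr _ fun _ _ => rfl
      apply filter_congr
      intro n _
      exact ⟨fun h5 => h5.trans hrr.symm, fun h5 => h5.trans hrr⟩
    rw [hws] at hbig
    -- the shift
    have hu1 : -(R : ℤ) ≤ h - ⌊g i⌋ ∧ h - ⌊g i⌋ ≤ R := by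
      have a1 := Int.floor_le (g i)
      have a2 := Int.lt_floor_add_one (g i)
      have a3 := abs_le.1 hh
      have a4 : Lg ^ W ≤ (⌈Lg ^ W⌉₊ : ℝ) := Nat.le_ceil _
      have a5 : (-(R : ℝ)) ≤ (h : ℝ) - ⌊g i⌋ ∧ (h : ℝ) - ⌊g i⌋ ≤ R := by
        rw [hR]
        push_cast
        constructor <;> linarith [a3.1, a3.2]
      constructor
      · exact_mod_cast a5.1
      · exact_mod_cast a5.2
    -- a small initial segment
    have hini : ∀ v : ℕ, |Ini f (G l) (α l) X m r' h v| ≤ A + ((2 * X + 1 : ℕ) : ℝ) / M := by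
      intro v
      obtain ⟨j, hj, htj, hcard⟩ := ht v
      refine (Ini_near hf (G l) (hG l) (α l) X m r' h (t j) v htj).trans ?_
      rw [card_range] at hcard
      apply add_le_add _ hcard
      have h6 := hcon (h - ⌊g i⌋, l, m, r', j) (by
        rw [hJ, mem_product, mem_product, mem_product, mem_product, mem_Icc, mem_range, mem_range, mem_range]
        refine ⟨hu1, mem_univ _, ?_, ?_, ?_⟩
        · show m < Q + 1
          omega
        · show r' < Q + 1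
          omega
        · show j < M + 1
          omega)
      rw [mem_filter] at h6
      push Not at h6
      have h7 := h6 (hBs hi)
      rw [hZ] at h7
      simp only [add_sub_cancel] at h7
      exact h7
    by_cases huw : u ≤ w
    · rw [wsum_eq f (G l) (α l) X m (hα l) r' h u w huw (by rw [hX]; exact hu) (by rw [hX]; exact hw)] at hbig
      have h5 := hini (α l * w + X + 1).toNat
      have h6 := hini (α l * u + X).toNat
      have h7 := abs_sub (Ini f (G l) (α l) X m r' h (α l * w + X + 1).toNat) (Ini f (G l) (α l) X m r' h (α l * u + X).toNat)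
      have h8 : ((2 * X + 1 : ℕ) : ℝ) / M ≤ (2 * B + 1) * (Y / Lg ^ (U + 2)) := by
        calc ((2 * X + 1 : ℕ) : ℝ) / M ≤ ((2 * X + 1 : ℕ) : ℝ) / Lg ^ (U + 2) :=
              div_le_div_of_nonneg_left (Nat.cast_nonneg _) (by positivity) hM1
          _ ≤ ((2 * B + 1) * Y) / Lg ^ (U + 2) := by
              apply div_le_div_of_nonneg_right _ (by positivity)
              rw [hX]
              push_cast
              have : (1 : ℝ) ≤ Y := by exact_mod_cast hY1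
              nlinarith
          _ = _ := by ring
      have h9 : A + (2 * B + 1) * (Y / Lg ^ (U + 2)) ≤ (Y / Lg ^ U) / 2 := by
        have e1 : A = (Y / Lg ^ U) / Lg := by rw [hA, pow_succ, div_div]
        have e2 : Y / Lg ^ (U + 2) = (Y / Lg ^ U) / Lg / Lg := by rw [pow_succ, pow_succ, div_div, div_div, mul_assoc]
        rw [e1, e2]
        obtain ⟨y, hy⟩ : ∃ y : ℝ, y = Y / Lg ^ U := ⟨_, rfl⟩
        rw [← hy]
        have hy0 : 0 ≤ y := by rw [hy]; positivity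
        have a1 : y / Lg ≤ y / 16 := div_le_div_of_nonneg_left hy0 (by norm_num) hL16
        have a2 : (2 * B + 1) * (y / Lg / Lg) ≤ y / Lg := by
          rw [← mul_div_assoc, div_le_iff₀ hLg0, mul_comm]
          exact mul_le_mul_of_nonneg_left (by linarith) (by positivity)
        linarith
      linarith
    · have : wsum f (G l) (α l) h m r' u w = 0 := by
        unfold wsum
        rw [Icc_eq_empty (by omega), filter_empty, sum_empty]
      rw [this, abs_zero] at hbig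
      have : 0 ≤ Y / Lg ^ U := by positivity
      linarith
  have hcardJ : (J.card : ℝ) ≤ Lg ^ (W + 1) * (Lg ^ T * (Lg ^ (T + 1) * (Lg ^ (T + 1) * Lg ^ (U + 3)))) := by
    rw [hJ, card_product, card_product, card_product, card_product, card_range, card_range, Int.card_Icc, card_univ, Fintype.card_fin]
    have e1 : ((R : ℤ) + 1 - -(R : ℤ)).toNat = 2 * R + 1 := by omega
    rw [e1]
    push_cast
    have p1 : ∀ A : ℕ, (1 : ℝ) ≤ Lg ^ A := fun A => one_le_pow₀ hLg1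
    have b1 : 2 * (R : ℝ) + 1 ≤ Lg ^ (W + 1) := by
      rw [pow_succ]
      have := p1 W
      nlinarith
    have b2 : (Q : ℝ) + 1 ≤ Lg ^ (T + 1) := by
      rw [pow_succ]
      have := p1 T
      nlinarith
    have b3 : (M : ℝ) + 1 ≤ Lg ^ (U + 3) := by
      rw [pow_succ]
      have := p1 (U + 2)
      nlinarith
    gcongr
  have hfin : ∑ i ∈ Bad, p i ≤ (J.card : ℝ) * (5 * (Y / Lg ^ V) / A) := by
    calc ∑ i ∈ Bad, p i ≤ ∑ i ∈ J.biUnion (fun τ => s.filter (fun i => A < Z τ i)), p i := by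
          apply sum_le_sum_of_subset_of_nonneg hsub
          intro i hi _
          rw [mem_biUnion] at hi
          obtain ⟨τ, _, h5⟩ := hi
          exact hMo.nonneg i (mem_filter.1 h5).1
      _ ≤ ∑ τ ∈ J, ∑ i ∈ s.filter (fun i => A < Z τ i), p i := by
          apply sum_biUnion_le'
          intro τ _ i hi
          exact hMo.nonneg i (mem_filter.1 hi).1
      _ ≤ ∑ _τ ∈ J, 5 * (Y / Lg ^ V) / A := by
          apply sum_le_sum
          intro τ hτ
          exact markov_p hMo.nonneg (Z τ) (fun i _ => by rw [hZ]; exact abs_nonneg _) A _ hA0 (hZ1 τ hτ)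
      _ = _ := by rw [sum_const, nsmul_eq_mul]
  refine hfin.trans ?_
  have h5 : 5 * (Y / Lg ^ V) / A = 5 * Lg ^ (U + 1) / Lg ^ V := by
    rw [hA]
    field_simp
  rw [h5]
  calc (J.card : ℝ) * (5 * Lg ^ (U + 1) / Lg ^ V) ≤ (Lg ^ (W + 1) * (Lg ^ T * (Lg ^ (T + 1) * (Lg ^ (T + 1) * Lg ^ (U + 3))))) *
        (Lg * Lg ^ (U + 1) / Lg ^ V) := by
        apply mul_le_mul hcardJ _ (by positivity) (by positivity)
        apply div_le_div_of_nonneg_right _ (by positivity)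
        apply mul_le_mul_of_nonneg_right _ (by positivity)
        linarith
    _ = Lg ^ (W + 3 * T + 2 * U + 8) / Lg ^ V := by
        rw [← mul_div_assoc]
        congr 1
        ring
    _ ≤ 1 / Lg ^ U := by
        rw [div_le_div_iff₀ (by positivity) (by positivity), one_mul, ← pow_add]
        apply pow_le_pow_right₀ hLg1
        omega

end Pool.Agent.HP25.PC
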