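import Pool.Agent.HP25.PC.C
import Pool.Agent.HP25.FD.C

set_option autoImplicit false

/-! All integers close to the multiples of a random point of a measure whose Fourier transform decays polynomially. -/

namespace Pool.Agent.HP25.PC
open Finset MeasureTheory Filter Topology
open Pool.Agent.H807R2.Dav
open Pool.Agent.W93.LM (Nice)
open Pool.Agent.TH872.Sq
open Pool.Agent.HP25.OS (Mo logs)
open Pool.Agent.HP25.FD (Decay mo_decay bad_cells cell cell_close)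

/-- one scale -/
theorem decay_law (C δ : ℝ) (hδ : 0 < δ) (f : ℕ → ℝ) (hf : Nice (fun n => ((f n : ℝ) : ℂ))) (A B T W U : ℕ) :
    ∃ K₀ : ℕ, ∀ x : ℝ, (K₀ : ℝ) ≤ x → ∀ (ν : Measure ℝ) [IsProbabilityMeasure ν], ν (Set.Icc (0 : ℝ) A)ᶜ = 0 → Decay ν C δ →
    ∀ L : ℕ, (L : ℝ) ≤ Real.log x ^ T → ∀ G : Fin L → ℤ → ℝ, (∀ l n, |G l n| ≤ 1) → ∀ α : Fin L → ℕ, (∀ l, 1 ≤ α l) →
    ν.real {y | ∃ h : ℤ, |(h : ℝ) - x * y| ≤ Real.log x ^ W ∧
      ∃ (l : Fin L) (m : ℕ) (r u w : ℤ), 1 ≤ m ∧ (m : ℝ) ≤ Real.log x ^ T ∧ α l * |(u : ℝ)| ≤ B * x ∧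
        α l * |(w : ℝ)| ≤ B * x ∧ x / Real.log x ^ U < |wsum f (G l) (α l) h m r u w|} ≤ 1 / Real.log x ^ U := by
  classical
  obtain ⟨q, C₀, hq, hC₀, hmo⟩ := mo_decay C δ hδ
  obtain ⟨K1, h1⟩ := small_law (ι := ℕ) q hq C₀ hC₀ f hf (2 * A) (2 * B) (2 * T) (2 * W + 1) (2 * U + 1)
  obtain ⟨K2, h2⟩ := log_big 3
  refine ⟨K1 + K2 + 2, fun x hx ν _ hν hdec L hL G hG α hα => ?_⟩
  have hx2 : (2 : ℝ) ≤ x := le_trans (by exact_mod_cast (by omega : 2 ≤ K1 + K2 + 2)) hx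
  obtain ⟨n, D, ψ, hn, hD, hDl, hψ, hcell, hMo⟩ := hmo A ν hν hdec x (by linarith)
  obtain ⟨Y, hY⟩ : ∃ Y, Y = ⌊x⌋₊ := ⟨_, rfl⟩
  rw [← hY] at hMo
  have hYN : K1 + K2 + 2 ≤ Y := by rw [hY]; exact Nat.le_floor hx
  have hYle : (Y : ℝ) ≤ x := by rw [hY]; exact Nat.floor_le (by linarith)
  have hYlt : x < Y + 1 := by rw [hY]; exact Nat.lt_floor_add_one _
  have hY2 : (2 : ℝ) ≤ Y := by exact_mod_cast (by omega : 2 ≤ Y)
  obtain ⟨Lg, hLg⟩ : ∃ Lg, Lg = Real.log Y := ⟨_, rfl⟩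
  have hL3 : 3 ≤ Lg := by rw [hLg]; exact h2 Y (by omega)
  have hLg0 : 0 < Lg := by linarith
  have hxY : Lg ≤ Real.log x := by rw [hLg]; exact Real.log_le_log (by linarith) hYle
  have hl0 : 0 < Real.log x := by linarith
  have hll : Real.log x ≤ Lg ^ 2 := by
    have h3 : Real.log x ≤ Real.log ((Y : ℝ) ^ 2) := Real.log_le_log (by linarith) (by nlinarith)
    rw [Real.log_pow, ← hLg] at h3
    push_cast at h3
    nlinarith
  have hpw : ∀ k : ℕ, Real.log x ^ k ≤ Lg ^ (2 * k) := by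
    intro k
    rw [pow_mul]
    exact pow_le_pow_left₀ hl0.le hll k
  obtain ⟨E, hE⟩ : ∃ E : Set ℝ, E = {y | ∃ h : ℤ, |(h : ℝ) - x * y| ≤ Real.log x ^ W ∧
      ∃ (l : Fin L) (m : ℕ) (r u w : ℤ), 1 ≤ m ∧ (m : ℝ) ≤ Real.log x ^ T ∧ α l * |(u : ℝ)| ≤ B * x ∧
        α l * |(w : ℝ)| ≤ B * x ∧ x / Real.log x ^ U < |wsum f (G l) (α l) h m r u w|} := ⟨_, rfl⟩
  rw [← hE]
  have hbc := bad_cells ν A D n ψ hν hD hψ hcell E
  have hn0 : (0 : ℝ) < n := by exact_mod_cast hn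
  have hD0 : (0 : ℝ) < D := by exact_mod_cast hD
  have hA0 : (0 : ℝ) ≤ A := Nat.cast_nonneg _
  have hB0 : (0 : ℝ) ≤ B := Nat.cast_nonneg _
  have win : ∀ (a : ℕ) (u : ℤ), (a : ℝ) * |(u : ℝ)| ≤ B * x → (a : ℤ) * |u| ≤ ((2 * B * Y : ℕ) : ℤ) := by
    intro a u h
    have h3 : (a : ℝ) * |(u : ℝ)| ≤ 2 * B * Y := by
      refine h.trans ?_
      nlinarith
    have h4 : (((a : ℤ) * |u| : ℤ) : ℝ) ≤ (((2 * B * Y : ℕ) : ℤ) : ℝ) := by
      push_cast
      exact h3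
    exact_mod_cast h4
  have h3 := h1 Y (by omega) (range n) (fun _ => 1 / ((range n).card : ℝ)) (fun j => x * ((ψ j : ℝ) / D)) hMo (fun j hj => by
      have h4 : ψ j ≤ A * D := by have := hψ j (mem_range.1 hj); omega
      have h5 : (ψ j : ℝ) / D ≤ A := by
        rw [div_le_iff₀ hD0]
        exact_mod_cast h4
      have h6 : 0 ≤ (ψ j : ℝ) / D := by positivity
      rw [abs_of_nonneg (by positivity)]
      push_cast
      calc x * ((ψ j : ℝ) / D) ≤ (2 * Y) * A := mul_le_mul (by linarith) h5 h6 (by positivity)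
        _ = _ := by ring) L (by rw [← hLg]; exact hL.trans (hpw T)) G hG α hα
    ((range n).filter (fun j => ∃ y ∈ E, y ∈ cell D (ψ j))) (filter_subset _ _) (fun j hj => by
      rw [mem_filter] at hj
      obtain ⟨_, y, hyE, hy⟩ := hj
      rw [hE] at hyE
      obtain ⟨h, hh, l, m, r, u, w, a1, a2, a3, a4, a5⟩ := hyE
      rw [← hLg]
      refine ⟨h, ?_, l, m, r, u, w, a1, a2.trans (hpw T), win _ _ a3, win _ _ a4, ?_⟩
      · have g3 := cell_close D (ψ j) y x (by linarith) hDl hy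
        have g4 : (h : ℝ) - x * ((ψ j : ℝ) / D) = ((h : ℝ) - x * y) + (x * y - x * ((ψ j : ℝ) / D)) := by ring
        rw [g4]
        refine (abs_add_le _ _).trans ?_
        have g5 := hpw W
        have g6 : (1 : ℝ) ≤ Lg ^ (2 * W) := one_le_pow₀ (by linarith)
        rw [pow_succ]
        nlinarith
      · refine lt_of_le_of_lt ?_ a5
        rw [div_le_div_iff₀ (by positivity) (by positivity)]
        have g5 : Real.log x ^ U ≤ Lg ^ (2 * U + 1) := by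
          refine (hpw U).trans ?_
          exact pow_le_pow_right₀ (by linarith) (by omega)
        exact mul_le_mul hYle g5 (by positivity) (by linarith))
  rw [sum_const, nsmul_eq_mul, card_range, mul_one_div, ← hLg, div_le_iff₀ hn0] at h3
  have h9 : ν.real E * n ≤ 2 * (1 / Lg ^ (2 * U + 1) * n) := hbc.trans (mul_le_mul_of_nonneg_left h3 (by norm_num))
  have h10 : ν.real E ≤ 2 / Lg ^ (2 * U + 1) := by
    have h11 : 2 * (1 / Lg ^ (2 * U + 1) * n) = (2 / Lg ^ (2 * U + 1)) * n := by ring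
    rw [h11] at h9
    exact le_of_mul_le_mul_right h9 hn0
  refine h10.trans ?_
  have h12 := hpw U
  have h13 : 0 < Real.log x ^ U := by positivity
  rw [div_le_div_iff₀ (by positivity) h13, pow_succ]
  nlinarith

/-- From estimates at single scales to almost all points. -/
lemma ae_seqR {α : Type} [MeasurableSpace α] (μ : Measure α) [IsProbabilityMeasure μ] (N : ℕ → ℝ) (c : ℝ) (hc : 0 < c)
    (hN : ∀ᶠ k : ℕ in atTop, Real.exp ((k : ℝ) ^ c) ≤ N k) (B : ℕ → Set α)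
    (h : ∀ U : ℕ, ∃ N₀ : ℕ, ∀ k : ℕ, (N₀ : ℝ) ≤ N k → μ.real (B k) ≤ 1 / Real.log (N k) ^ U) :
    ∀ᵐ x ∂μ, ∀ᶠ k : ℕ in atTop, x ∉ B k := by
  obtain ⟨U, hU⟩ := exists_nat_ge (2 / c)
  obtain ⟨N₀, hN₀⟩ := h U
  have htend : Tendsto (fun k : ℕ => Real.exp ((k : ℝ) ^ c)) atTop atTop :=
    Real.tendsto_exp_atTop.comp ((tendsto_rpow_atTop hc).comp tendsto_natCast_atTop_atTop)
  obtain ⟨k₀, hk₀⟩ := eventually_atTop.1 ((hN.and (htend.eventually_ge_atTop (N₀ : ℝ))).and (eventually_ge_atTop 1))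
  have hb : ∀ k, k₀ ≤ k → μ.real (B k) ≤ 1 / (k : ℝ) ^ 2 := by
    intro k hk
    obtain ⟨⟨h1, h2⟩, h3⟩ := hk₀ k hk
    refine (hN₀ k (h2.trans h1)).trans ?_
    have hk1 : (1 : ℝ) ≤ k := by exact_mod_cast h3
    have hl : (k : ℝ) ^ c ≤ Real.log (N k) := by
      rw [Real.le_log_iff_exp_le (lt_of_lt_of_le (Real.exp_pos _) h1)]
      exact h1
    apply one_div_le_one_div_of_le (by positivity)
    calc (k : ℝ) ^ 2 = (k : ℝ) ^ (2 : ℝ) := by norm_cast
      _ ≤ (k : ℝ) ^ (c * U) := by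
          apply Real.rpow_le_rpow_of_exponent_le hk1
          rw [div_le_iff₀ hc] at hU
          linarith
      _ = ((k : ℝ) ^ c) ^ U := by rw [Real.rpow_mul (by positivity), Real.rpow_natCast]
      _ ≤ _ := pow_le_pow_left₀ (by positivity) hl U
  have hae : ∀ᵐ x ∂μ, ∀ᶠ k : ℕ in atTop, x ∉ B (k + k₀) := by
    apply ae_eventually_notMem
    have hs : Summable (fun k : ℕ => 1 / ((k : ℝ)) ^ 2) := Real.summable_one_div_nat_pow.2 (by norm_num)
    have hs2 : Summable (fun k : ℕ => μ.real (B (k + k₀))) := by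
      apply Summable.of_nonneg_of_le (fun _ => measureReal_nonneg) (fun k => ?_) ((summable_nat_add_iff k₀).2 hs)
      exact hb (k + k₀) (by omega)
    have e1 : ∀ k : ℕ, μ (B (k + k₀)) = ENNReal.ofReal (μ.real (B (k + k₀))) := by
      intro k
      rw [ofReal_measureReal (measure_lt_top _ _).ne]
    simp only [e1]
    rw [← ENNReal.ofReal_tsum_of_nonneg (fun _ => measureReal_nonneg) hs2]
    exact ENNReal.ofReal_ne_top
  filter_upwards [hae] with x hx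
  obtain ⟨k₁, hk₁⟩ := eventually_atTop.1 hx
  rw [eventually_atTop]
  refine ⟨k₁ + k₀, fun k hk => ?_⟩
  have := hk₁ (k - k₀) (by omega)
  rwa [Nat.sub_add_cancel (by omega)] at this

end Pool.Agent.HP25.PC
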